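import Mathlib
import Pool.Agent.Q280.JD.NonRes

/-!
Full answer to Q1 of MP_b23923_nt: for every prime `p ≡ 1 (mod 4)` there is a positive integer `t`
with `(t/p) = 1` and `D(d,p) = 2^((p-7)/2) t² B(d,p)` for all `d` with `(d/p) = -1`.
-/

namespace Pool.Agent.Results.MP_b23923_nt.NonresidueDet

/-- `D(d,p)`: the determinant of the matrix `((j² + d k²)/p)` of Legendre symbols, rows and columns
indexed by `j, k = 2, ..., (p-1)/2` (here `j = a + 2`, `k = b + 2` with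
`a, b = 0, ..., (p-3)/2 - 1`). -/
def D (p : ℕ) [Fact p.Prime] (d : ℤ) : ℤ :=
  Matrix.det (Matrix.of fun a b : Fin ((p - 3) / 2) =>
    legendreSym p (((a : ℕ) + 2 : ℤ) ^ 2 + d * ((b : ℕ) + 2 : ℤ) ^ 2))

/-- `B(d,p) = ∑_{x=1}^{(p-1)/2} (x(x²+d)/p)`. -/
def B (p : ℕ) [Fact p.Prime] (d : ℤ) : ℤ :=
  ∑ x ∈ Finset.Icc 1 ((p - 1) / 2), legendreSym p ((x : ℤ) * ((x : ℤ) ^ 2 + d))

theorem result : ∀ (p : ℕ) [Fact p.Prime], p % 4 = 1 →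
    ∃ t : ℕ, 0 < t ∧ legendreSym p (t : ℤ) = 1 ∧
      ∀ d : ℤ, legendreSym p d = -1 →
        (D p d : ℚ) = (2 : ℚ) ^ (((p : ℤ) - 7) / 2) * (t : ℚ) ^ 2 * (B p d : ℚ) := by
  intro p hf hp
  have hp2 := hf.out.two_le
  obtain ⟨M, hM⟩ : ∃ M : ℕ, p = 4 * M + 5 := by
    have h1 : p ≠ 1 := by omega
    exact ⟨(p - 5) / 4, by omega⟩
  obtain ⟨G⟩ := Pool.Agent.Q280.JD.Ev.exists_PR p M hM
  obtain ⟨t, ht, hchi, h⟩ := Pool.Agent.Q280.JD.Ev.main_nonres G hM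
  refine ⟨t, ht, hchi, ?_⟩
  intro d hd
  have h1 := h d hd
  have h2 : 2 * D p d = 4 ^ M * (t : ℤ) ^ 2 * B p d := h1
  have h3 : ((2 * D p d : ℤ) : ℚ) = ((4 ^ M * (t : ℤ) ^ 2 * B p d : ℤ) : ℚ) := by rw [h2]
  push_cast at h3
  have h4 : (2 : ℚ) ^ (((p : ℤ) - 7) / 2) * 2 = 4 ^ M := by
    have e : ((p : ℤ) - 7) / 2 = 2 * (M : ℤ) - 1 := by omega
    rw [e, zpow_sub₀ (by norm_num), zpow_one, div_mul_cancel₀ _ (by norm_num : (2 : ℚ) ≠ 0),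
      zpow_mul]
    norm_num
  rw [← h4] at h3
  linarith

end Pool.Agent.Results.MP_b23923_nt.NonresidueDet
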